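import Pool.Agent.Helper225.CP.Stmts

set_option autoImplicit false

namespace Pool.Agent.Helper225.CP

open CategoryTheory Abelian MulOpposite Pool.Agent.Q112.Rig

universe u

theorem fin_of_retract {R : Type u} [Ring R] {X X' : Type u} [AddCommGroup X] [Module R X]
    [AddCommGroup X'] [Module R X'] (s : X →ₗ[R] X') (r : X' →ₗ[R] X) (h : r ∘ₗ s = LinearMap.id)
    (hf : Module.Finite R X') : Module.Finite R X :=
  Module.Finite.of_surjective r fun x => ⟨s x, LinearMap.congr_fun h x⟩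

theorem final (hResProj : TaskResProj.{u}) (hExtAdj : TaskExtAdj.{u}) (hChain : TaskChain.{u})
    (hFlag : TaskFlag) (hDiag : TaskDiag.{u}) (hLayers : TaskLayers.{u}) (hCoPi : TaskCoPi.{u})
    (hFin : TaskFin.{u}) (hOp : TaskOp.{u}) (hDec : TaskDec.{u}) (hList : TaskList.{u})
    (hExch : TaskExch.{u}) (hRel : TaskRel) (hIso : TaskIso.{u}) (hRetL : TaskRetL.{u}) :
    Final.{u} := by
  intro p _ B A _ _ hArt hB P _ _ hP C k hk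
  classical
  obtain ⟨D⟩ := hOp B A P C
  have hT : (p : Bᵐᵒᵖ) = 0 := by
    apply unop_injective
    rw [unop_natCast, hB, unop_zero]
  have _ : IsNoetherianRing Bᵐᵒᵖ := inferInstance
  set n := Fintype.card P with hn
  have hn1 : 1 ≤ n := Fintype.card_pos
  refine iSup₂_le fun m hm => ?_
  obtain ⟨M, hM⟩ := hm
  have hfin := fun q => hFin Bᵐᵒᵖ Aᵐᵒᵖ P D hArt (M q) (hM.fin q)
  -- coinduction of the restrictions
  have hco : ∀ q, Nonempty (D.coind.obj (D.res.obj (M q)) ≃ₗ[Aᵐᵒᵖ] (Fin n → M q)) := fun q =>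
    hChain Aᵐᵒᵖ (M q) _ n (hLayers hFlag hDiag p Bᵐᵒᵖ Aᵐᵒᵖ P D hP hT (M q))
      (hM.ext q q 1 le_rfl hk)
  have hext : ∀ q q' i, 1 ≤ i → i ≤ k →
      Subsingleton (Ext (D.res.obj (M q)) (D.res.obj (M q')) i) := by
    intro q q' i hi hik
    obtain ⟨j, rfl⟩ : ∃ j, i = j + 1 := ⟨i - 1, by omega⟩
    rw [hExtAdj hResProj Bᵐᵒᵖ Aᵐᵒᵖ P D j (M q) (D.res.obj (M q'))]
    obtain ⟨e⟩ := hco q'
    refine ext_iso_right (Y := ModuleCat.of Aᵐᵒᵖ (Fin n → M q')) (LinearEquiv.toModuleIso e.symm) _ ?_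
    exact (ext_pi_right n hn1 (j + 1)).2 (hM.ext q q' (j + 1) hi hik)
  have hfT : ∀ q, Module.Finite Bᵐᵒᵖ (D.res.obj (M q)) := fun q => (hfin q).1
  obtain ⟨RM, hRM⟩ : ∃ RM : Fin m → ModuleCat.{u} Bᵐᵒᵖ, ∀ q, RM q = D.res.obj (M q) :=
    ⟨fun q => D.res.obj (M q), fun _ => rfl⟩
  have hcoR : ∀ q, Nonempty (D.coind.obj (RM q) ≃ₗ[Aᵐᵒᵖ] (Fin n → M q)) := fun q => by
    rw [hRM q]; exact hco q
  have hextR : ∀ q q' i, 1 ≤ i → i ≤ k → Subsingleton (Ext (RM q) (RM q') i) := fun q q' i hi hik => by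
    rw [hRM q, hRM q']; exact hext q q' i hi hik
  have hfR : ∀ q, Module.Finite Bᵐᵒᵖ (RM q) := fun q => by
    rw [hRM q]; exact hfT q
  have hArtT : ∀ q, IsArtinian Bᵐᵒᵖ (RM q) := fun q => by
    have := hfR q
    infer_instance
  have hNoeT : ∀ q, IsNoetherian Bᵐᵒᵖ (RM q) := fun q => by
    have := hfR q
    infer_instance
  clear hRM hext hco hfT
  obtain ⟨r, L, mm, hLind, hLiso, hLpos, hLdec⟩ := hList hDec Bᵐᵒᵖ m RM hArtT hNoeT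
  -- retracts
  have hret : ∀ j, ∃ q, ∃ (s : L j →ₗ[Bᵐᵒᵖ] RM q) (t : RM q →ₗ[Bᵐᵒᵖ] L j),
      t ∘ₗ s = LinearMap.id := by
    intro j
    obtain ⟨q, hq⟩ := hLpos j
    obtain ⟨e⟩ := hLdec q
    refine ⟨q, e.symm.toLinearMap ∘ₗ (LinearMap.single Bᵐᵒᵖ (fun j' : Fin r => Fin (mm q j') → L j') j) ∘ₗ
      (LinearMap.single Bᵐᵒᵖ (fun _ : Fin (mm q j) => (L j : Type u)) ⟨0, hq⟩),
      (LinearMap.proj ⟨0, hq⟩ : (Fin (mm q j) → L j) →ₗ[Bᵐᵒᵖ] L j) ∘ₗ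
        (LinearMap.proj j : (∀ j' : Fin r, Fin (mm q j') → L j') →ₗ[Bᵐᵒᵖ] (Fin (mm q j) → L j)) ∘ₗ
        e.toLinearMap, ?_⟩
    apply LinearMap.ext
    intro x
    simp
  have hfam : RigidFamily B k r L := by
    refine ⟨?_, hLind, hLiso, ?_⟩
    · intro j
      obtain ⟨q, s, t, h⟩ := hret j
      exact fin_of_retract s t h (hfR q)
    · intro j j' i hi hik
      obtain ⟨q, s, t, h⟩ := hret j
      obtain ⟨q', s', t', h'⟩ := hret j'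
      have h1 : Subsingleton (Ext (RM q) (L j') i) :=
        ext_retract_right (ModuleCat.ofHom s') (ModuleCat.ofHom t')
          (by rw [← ModuleCat.ofHom_comp, h']; rfl) i (hextR q q' i hi hik)
      exact hRetL Bᵐᵒᵖ (L j) (RM q) (L j') (ModuleCat.ofHom s) (ModuleCat.ofHom t)
        (by rw [← ModuleCat.ofHom_comp, h]; rfl) i h1
  have hmr : m ≤ r := by
    by_contra hlt
    push Not at hlt
    obtain ⟨a, b, ⟨i₀, hi₀⟩, hab, hsum⟩ := hRel m r mm hlt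
    obtain ⟨E⟩ := hIso Bᵐᵒᵖ m r RM L mm hLdec a b hsum
    obtain ⟨e1⟩ := hCoPi Bᵐᵒᵖ Aᵐᵒᵖ P D (Σ i, Fin (a i)) (fun x => RM x.1)
    obtain ⟨e2⟩ := hCoPi Bᵐᵒᵖ Aᵐᵒᵖ P D (Σ i, Fin (b i)) (fun x => RM x.1)
    have E' : D.coind.obj (ModuleCat.of Bᵐᵒᵖ (∀ x : (Σ i, Fin (a i)), RM x.1)) ≃ₗ[Aᵐᵒᵖ]
        D.coind.obj (ModuleCat.of Bᵐᵒᵖ (∀ x : (Σ i, Fin (b i)), RM x.1)) :=
      (D.coind.mapIso (LinearEquiv.toModuleIso E)).toLinearEquiv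
    have c := fun q => (hcoR q).some
    let F1 : (∀ x : (Σ i, Fin (a i)), D.coind.obj (RM x.1)) ≃ₗ[Aᵐᵒᵖ]
        (∀ x : (Σ i, Fin (a i)), Fin n → M x.1) := LinearEquiv.piCongrRight fun x => c x.1
    let F2 : (∀ x : (Σ i, Fin (b i)), D.coind.obj (RM x.1)) ≃ₗ[Aᵐᵒᵖ]
        (∀ x : (Σ i, Fin (b i)), Fin n → M x.1) := LinearEquiv.piCongrRight fun x => c x.1
    let Φ : (∀ x : (Σ i, Fin (a i)), Fin n → M x.1) ≃ₗ[Aᵐᵒᵖ]
        (∀ x : (Σ i, Fin (b i)), Fin n → M x.1) :=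
      F1.symm.trans (e1.symm.trans (E'.trans (e2.trans F2)))
    let x₀ : Σ i, Fin (a i) := ⟨i₀, ⟨0, Nat.pos_of_ne_zero hi₀⟩⟩
    let l₀ : Fin n := ⟨0, hn1⟩
    let s : M i₀ →ₗ[Aᵐᵒᵖ] (∀ x : (Σ i, Fin (a i)), Fin n → M x.1) :=
      (LinearMap.single Aᵐᵒᵖ (fun x : (Σ i, Fin (a i)) => Fin n → M x.1) x₀) ∘ₗ
        (LinearMap.single Aᵐᵒᵖ (fun _ : Fin n => (M i₀ : Type u)) l₀)
    let t : (∀ x : (Σ i, Fin (a i)), Fin n → M x.1) →ₗ[Aᵐᵒᵖ] M i₀ :=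
      (LinearMap.proj l₀ : (Fin n → M i₀) →ₗ[Aᵐᵒᵖ] M i₀) ∘ₗ
        (LinearMap.proj x₀ : (∀ x : (Σ i, Fin (a i)), Fin n → M x.1) →ₗ[Aᵐᵒᵖ] (Fin n → M i₀))
    have hts : ∀ v, t (s v) = v := by
      intro v
      simp [s, t]
    let s' : M i₀ →ₗ[Aᵐᵒᵖ] (∀ z : (Σ i, Fin (b i)) × Fin n, M z.1.1) :=
      LinearMap.pi fun z => (LinearMap.proj z.2 : (Fin n → M z.1.1) →ₗ[Aᵐᵒᵖ] M z.1.1) ∘ₗ
        (LinearMap.proj z.1 : (∀ x : (Σ i, Fin (b i)), Fin n → M x.1) →ₗ[Aᵐᵒᵖ] (Fin n → M z.1.1)) ∘ₗ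
        Φ.toLinearMap ∘ₗ s
    let t' : (∀ z : (Σ i, Fin (b i)) × Fin n, M z.1.1) →ₗ[Aᵐᵒᵖ] M i₀ :=
      t ∘ₗ Φ.symm.toLinearMap ∘ₗ (LinearMap.pi fun x => LinearMap.pi fun l =>
        (LinearMap.proj (x, l) : (∀ z : (Σ i, Fin (b i)) × Fin n, M z.1.1) →ₗ[Aᵐᵒᵖ] M x.1))
    have hid : t' ∘ₗ s' = LinearMap.id := by
      apply LinearMap.ext
      intro v
      have h1 : (LinearMap.pi fun x => LinearMap.pi fun l =>
        (LinearMap.proj (x, l) : (∀ z : (Σ i, Fin (b i)) × Fin n, M z.1.1) →ₗ[Aᵐᵒᵖ] M x.1)) (s' v) =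
          Φ (s v) := by
        funext x l
        rfl
      show t (Φ.symm ((LinearMap.pi fun x => LinearMap.pi fun l =>
        (LinearMap.proj (x, l) : (∀ z : (Σ i, Fin (b i)) × Fin n, M z.1.1) →ₗ[Aᵐᵒᵖ] M x.1)) (s' v))) = v
      rw [h1, LinearEquiv.symm_apply_apply, hts]
    obtain ⟨z, ⟨g⟩⟩ := hExch Aᵐᵒᵖ (M i₀) (hfin i₀).2.1 (hfin i₀).2.2 (hM.indec i₀)
      ((Σ i, Fin (b i)) × Fin n) (fun z => M z.1.1) (fun z => hM.indec z.1.1) s' t' hid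
    have hb0 : b i₀ = 0 := (hab i₀).resolve_left hi₀
    have hne : i₀ ≠ z.1.1 := by
      intro h
      have h1 : 0 < b z.1.1 := Nat.lt_of_le_of_lt (Nat.zero_le _) z.1.2.isLt
      rw [← h, hb0] at h1
      exact lt_irrefl _ h1
    exact (hM.noniso i₀ z.1.1 hne).false g
  calc (m : ℕ∞) ≤ (r : ℕ∞) := by exact_mod_cast hmr
    _ ≤ o B k := le_iSup₂_of_le r ⟨L, hfam⟩ le_rfl

end Pool.Agent.Helper225.CP
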