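import Pool.Agent.Q112.Rig.Defs
import Pool.Agent.Q112.Rig.ExtLem

/-!
MP_b2fb47_al: rigid modules over crossed products with `p`-groups. Blueprint.
Prove `theorem main : Pool.Agent.Helper225.CP.TaskX` (tasks it depends on as hypotheses) in
`Pool/Agent/Helper225/CP/TaskX.lean`, namespace `Pool.Agent.Helper225.CP.TX`.
-/

set_option autoImplicit false

namespace Pool.Agent.Helper225.CP

open CategoryTheory Abelian MulOpposite Pool.Agent.Q112.Rig

universe u

/-- `S` is a crossed product of the ring `T` with the group `P`. -/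
structure Crossed (T S : Type u) [Ring T] [Ring S] (P : Type) [Group P] [Fintype P] where
  f : T →+* S
  y : P → Sˣ
  conj : ∀ g t, ∃ t', (y g : S) * f t = f t' * (y g : S)
  conj' : ∀ g t, ∃ t', f t * (y g : S) = (y g : S) * f t'
  mul : ∀ g h, ∃ t, (y g : S) * (y h : S) = f t * (y (g * h) : S)
  bij : Function.Bijective (fun t : P → T => ∑ g, f (t g) * (y g : S))

variable {T S : Type u} [Ring T] [Ring S] {P : Type} [Group P] [Fintype P]

/-- restriction -/
noncomputable abbrev Crossed.res (D : Crossed T S P) : ModuleCat.{u} S ⥤ ModuleCat.{u} T :=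
  ModuleCat.restrictScalars D.f

/-- coinduction `Hom_T(S, N)` -/
noncomputable abbrev Crossed.coind (D : Crossed T S P) : ModuleCat.{u} T ⥤ ModuleCat.{u} S :=
  ModuleCat.coextendScalars D.f

/-- `res ⊣ coind` is `ModuleCat.restrictCoextendScalarsAdj D.f`. Hint: `Adjunction.map_projective`;
`coind` preserves epimorphisms, as `S` is free over `T` with basis `y g`. -/
def TaskResProj : Prop := ∀ (T S : Type u) [Ring T] [Ring S] (P : Type) [Group P] [Fintype P]
  (D : Crossed T S P) (X : ModuleCat.{u} S), Projective X → Projective (D.res.obj X)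

/-- Hint: induction on `i` with `Rig.ext_one_iff`, `Rig.ext_succ_iff` for a projective presentation of `X` and its
restriction, and the adjunction `res ⊣ coind`. -/
def TaskExtAdj : Prop := TaskResProj.{u} → ∀ (T S : Type u) [Ring T] [Ring S] (P : Type) [Group P] [Fintype P]
  (D : Crossed T S P) (i : ℕ) (X : ModuleCat.{u} S) (N : ModuleCat.{u} T),
  Subsingleton (Ext (D.res.obj X) N (i + 1)) ↔ Subsingleton (Ext X (D.coind.obj N) (i + 1))

/-- `M` has a chain of `n` submodules with quotients isomorphic to `X` -/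
def Layers (S : Type u) [Ring S] (X M : ModuleCat.{u} S) (n : ℕ) : Prop :=
  ∃ W : ℕ → Submodule S M, W 0 = ⊥ ∧ W n = ⊤ ∧ ∀ j < n, W j ≤ W (j + 1) ∧
    ∃ q : ↥(W (j + 1)) →ₗ[S] X, Function.Surjective q ∧ ∀ v, q v = 0 ↔ (v : M) ∈ W j

/-- Hint: induction on `j`: `W j ≅ X^j`; `0 → W j → W (j+1) → X → 0` splits as `Ext^1(X, X^j) = 0`
(`Rig.ext_pi_right`; splitting: `ShortComplex.ShortExact` and `Ext`: `extClass = 0`, or
`Ext.covariant_sequence_exact₃`/`exact₁` to lift the identity of `X`). -/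
def TaskChain : Prop := ∀ (S : Type u) [Ring S] (X M : ModuleCat.{u} S) (n : ℕ), Layers S X M n →
  Subsingleton (Ext X X 1) → Nonempty (M ≃ₗ[S] (Fin n → X))

/-- the regular representation of a `p`-group over `𝔽_p` is unitriangular -/
def TaskFlag : Prop := ∀ (p : ℕ) [Fact p.Prime] (P : Type) [Group P] [Fintype P], IsPGroup p P →
  ∃ w : Fin (Fintype.card P) → P → ZMod p, LinearIndependent (ZMod p) w ∧
    ∀ j (h : P), (fun g => w j (g * h)) - w j ∈ Submodule.span (ZMod p) {x | ∃ i < j, x = w i}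

/-- Hint: `e φ g = (y g)⁻¹ • φ (y g)`; `φ` is determined by its values at the `y g`, which are arbitrary. -/
def TaskDiag : Prop := ∀ (T S : Type u) [Ring T] [Ring S] (P : Type) [Group P] [Fintype P]
  (D : Crossed T S P) (X : ModuleCat.{u} S),
  ∃ e : (D.coind.obj (D.res.obj X) : Type u) ≃+ (P → X), ∀ (t : T) (h : P) (φ : D.coind.obj (D.res.obj X))
    (g : P), e ((D.f t * (D.y h : S)) • φ) g = (D.f t * (D.y h : S)) • e φ (g * h)

/-- Hint: `W j` = the functions `∑_{i < j} w i (g) x_i`, `x_i ∈ X`, (with `e` of TaskDiag; `p X = 0` so the integer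
`(w i g).val` acts; every function `P → X` is uniquely of this form with `j = |P|`), `q` = the last coefficient.
Every element of `S` is a sum of `D.f t * D.y h`. -/
def TaskLayers : Prop := TaskFlag → TaskDiag.{u} → ∀ (p : ℕ) [Fact p.Prime] (T S : Type u) [Ring T] [Ring S]
  (P : Type) [Group P] [Fintype P] (D : Crossed T S P), IsPGroup p P → (p : T) = 0 →
  ∀ X : ModuleCat.{u} S, Layers S X (D.coind.obj (D.res.obj X)) (Fintype.card P)

/-- coinduction and finite products -/
def TaskCoPi : Prop := ∀ (T S : Type u) [Ring T] [Ring S] (P : Type) [Group P] [Fintype P]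
  (D : Crossed T S P) (ι : Type) [Finite ι] (N : ι → ModuleCat.{u} T),
  Nonempty (D.coind.obj (ModuleCat.of T (∀ i, N i)) ≃ₗ[S] (∀ i, D.coind.obj (N i)))

/-- `S` is a finite module over `T` (generators `y g`), so Artinian -/
def TaskFin : Prop := ∀ (T S : Type u) [Ring T] [Ring S] (P : Type) [Group P] [Fintype P]
  (D : Crossed T S P), IsArtinianRing T → ∀ X : ModuleCat.{u} S, Module.Finite S X →
  Module.Finite T (D.res.obj X) ∧ IsArtinian S X ∧ IsNoetherian S X

/-- the opposite of a crossed product, with `op (y g⁻¹)` -/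
def TaskOp : Prop := ∀ (T S : Type u) [Ring T] [Ring S] (P : Type) [Group P] [Fintype P],
  Crossed T S P → Nonempty (Crossed Tᵐᵒᵖ Sᵐᵒᵖ P)

/-- Krull-Schmidt, existence -/
def TaskDec : Prop := ∀ (R : Type u) [Ring R] (M : ModuleCat.{u} R), IsArtinian R M → IsNoetherian R M →
  ∃ (n : ℕ) (N : Fin n → ModuleCat.{u} R), (∀ i, Indec R (N i)) ∧ Nonempty (M ≃ₗ[R] (∀ i, N i))

/-- collect isomorphic summands of finitely many modules. Hint: apply TaskDec to all `M i`; induction on the total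
number of summands, or the quotient of the finite index set by isomorphism. -/
def TaskList : Prop := TaskDec.{u} → ∀ (R : Type u) [Ring R] (s : ℕ) (M : Fin s → ModuleCat.{u} R),
  (∀ i, IsArtinian R (M i)) → (∀ i, IsNoetherian R (M i)) →
  ∃ (r : ℕ) (L : Fin r → ModuleCat.{u} R) (m : Fin s → Fin r → ℕ), (∀ j, Indec R (L j)) ∧
    (∀ j j', j ≠ j' → IsEmpty (L j ≃ₗ[R] L j')) ∧ (∀ j, ∃ i, 0 < m i j) ∧
    ∀ i, Nonempty (M i ≃ₗ[R] (∀ j : Fin r, Fin (m i j) → L j))

/-- exchange. Hint: `End X` is local (Fitting: `LinearMap.isCompl_iSup_ker_pow_iInf_range_pow`: every endomorphism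
is nilpotent or bijective); the identity is `∑ r ι_i π_i s`, so some `r ι_i π_i s` is bijective, and `Y i` is
indecomposable. -/
def TaskExch : Prop := ∀ (R : Type u) [Ring R] (X : ModuleCat.{u} R), IsArtinian R X → IsNoetherian R X →
  Indec R X → ∀ (ι : Type) [Finite ι] (Y : ι → ModuleCat.{u} R), (∀ i, Indec R (Y i)) →
  ∀ (s : X →ₗ[R] (∀ i, Y i)) (r : (∀ i, Y i) →ₗ[R] X), r ∘ₗ s = LinearMap.id →
  ∃ i, Nonempty (X ≃ₗ[R] Y i)

/-- linear algebra over `ℚ` -/
def TaskRel : Prop := ∀ (s r : ℕ) (m : Fin s → Fin r → ℕ), r < s →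
  ∃ a b : Fin s → ℕ, (∃ i, a i ≠ 0) ∧ (∀ i, a i = 0 ∨ b i = 0) ∧
    ∀ j, ∑ i, a i * m i j = ∑ i, b i * m i j

/-- products with equal multiplicities. Hint: both sides are `∀ j, Fin (∑ i, a i * m i j) → L j`. -/
def TaskIso : Prop := ∀ (R : Type u) [Ring R] (s r : ℕ) (M : Fin s → ModuleCat.{u} R)
  (L : Fin r → ModuleCat.{u} R) (m : Fin s → Fin r → ℕ),
  (∀ i, Nonempty (M i ≃ₗ[R] (∀ j : Fin r, Fin (m i j) → L j))) → ∀ a b : Fin s → ℕ,
  (∀ j, ∑ i, a i * m i j = ∑ i, b i * m i j) →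
  Nonempty ((∀ x : (Σ i, Fin (a i)), M x.1) ≃ₗ[R] (∀ x : (Σ i, Fin (b i)), M x.1))

/-- retracts in the first variable (as `Rig.ext_retract_right`) -/
def TaskRetL : Prop := ∀ (R : Type u) [Ring R] (X X' Y : ModuleCat.{u} R) (s : X ⟶ X') (r : X' ⟶ X),
  s ≫ r = 𝟙 X → ∀ i : ℕ, Subsingleton (Ext X' Y i) → Subsingleton (Ext X Y i)

/-- the theorem -/
def Final : Prop := ∀ (p : ℕ) [Fact p.Prime] (B A : Type u) [Ring B] [Ring A], IsArtinianRing Bᵐᵒᵖ →
  (p : B) = 0 → ∀ (P : Type) [Group P] [Fintype P], IsPGroup p P → Crossed B A P →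
  ∀ k : ℕ, 1 ≤ k → o A k ≤ o B k

end Pool.Agent.Helper225.CP
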