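import Pool.Agent.Helper225.CP.Stmts

set_option autoImplicit false

namespace Pool.Agent.Helper225.CP

universe u

/-- the group ring of a group is a crossed product of the group ring of a normal subgroup: `y` = representatives
(`Quotient.out`), `f` = `MonoidAlgebra.mapDomainRingHom` of the inclusion -/
def TaskGroup : Prop := ∀ (K : Type u) [Ring K] (G : Type) [Group G] (N : Subgroup G) [N.Normal]
  [Fintype (G ⧸ N)], Nonempty (Crossed (MonoidAlgebra K N) (MonoidAlgebra K G) (G ⧸ N))

/-- finite-dimensional algebras are right Artinian -/
def TaskArt : Prop := ∀ (K : Type u) [Field K] (B : Type u) [Ring B] [Algebra K B], Module.Finite K B →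
  IsArtinianRing Bᵐᵒᵖ

end Pool.Agent.Helper225.CP
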