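import Pool.Agent.Helper225.CP.Stmts

set_option autoImplicit false

namespace Pool.Agent.Helper225.CP.TChain

open CategoryTheory Abelian MulOpposite Pool.Agent.Q112.Rig

universe u

variable {S : Type u} [Ring S]

/-- the splitting -/
theorem split (X M : ModuleCat.{u} S) (A B : Submodule S M) (hAB : A ≤ B)
    (q : ↥B →ₗ[S] X) (hq : Function.Surjective q) (hk : ∀ v, q v = 0 ↔ (v : M) ∈ A)
    (hE : Subsingleton (Ext X (ModuleCat.of S A) 1)) :
    ∃ s : X →ₗ[S] ↥B, ∀ x, q (s x) = x := by
  let Sc : ShortComplex (ModuleCat.{u} S) :=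
    ShortComplex.mk (ModuleCat.ofHom (Submodule.inclusion hAB)) (ModuleCat.ofHom q) (by
      ext v
      show q (Submodule.inclusion hAB v) = 0
      rw [hk]
      exact v.2)
  have hS : Sc.ShortExact := by
    refine ShortComplex.ShortExact.mk' ?_ ?_ ?_
    · rw [ShortComplex.moduleCat_exact_iff]
      intro x hx
      have h1 : q x = 0 := hx
      rw [hk] at h1
      exact ⟨⟨x.1, h1⟩, rfl⟩
    · rw [ModuleCat.mono_iff_injective]
      exact Submodule.inclusion_injective hAB
    · rw [ModuleCat.epi_iff_surjective]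
      exact hq
  obtain ⟨x₂, hx₂⟩ := Ext.covariant_sequence_exact₃ X hS (Ext.mk₀ (𝟙 X)) (zero_add 1)
    (Subsingleton.elim (α := Ext X (ModuleCat.of S A) 1) _ _)
  obtain ⟨g, rfl⟩ := Ext.addEquiv₀.symm.surjective x₂
  have e : Ext.addEquiv₀.symm g = Ext.mk₀ g := rfl
  rw [e, Ext.mk₀_comp_mk₀] at hx₂
  have h2 : g ≫ Sc.g = 𝟙 X := Ext.addEquiv₀.symm.injective hx₂
  refine ⟨g.hom, fun x => ?_⟩
  have h3 := congrArg (fun f => f.hom x) h2
  exact h3

theorem step (X M : ModuleCat.{u} S) (A B : Submodule S M) (hAB : A ≤ B)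
    (q : ↥B →ₗ[S] X) (hk : ∀ v, q v = 0 ↔ (v : M) ∈ A)
    (s : X →ₗ[S] ↥B) (hs : ∀ x, q (s x) = x) : Nonempty (↥B ≃ₗ[S] (↥A × X)) := by
  have hmem : ∀ b : ↥B, (b - s (q b) : ↥B).1 ∈ A := fun b => by
    rw [← hk, map_sub, hs, sub_self]
  refine ⟨LinearEquiv.symm (LinearEquiv.ofBijective
    ((Submodule.inclusion hAB).coprod s) ⟨?_, ?_⟩)⟩
  · rw [injective_iff_map_eq_zero]
    rintro ⟨a, x⟩ h
    rw [LinearMap.coprod_apply] at h
    have h1 := congrArg q h
    rw [map_add, hs, map_zero, (hk _).2 a.2, zero_add] at h1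
    have h1' : x = 0 := h1
    subst h1'
    rw [map_zero, add_zero] at h
    have h2 : a = 0 := Submodule.inclusion_injective hAB (h.trans (map_zero _).symm)
    rw [h2]
    rfl
  · intro b
    refine ⟨(⟨_, hmem b⟩, q b), ?_⟩
    rw [LinearMap.coprod_apply]
    have : Submodule.inclusion hAB ⟨_, hmem b⟩ = b - s (q b) := rfl
    rw [this]
    exact sub_add_cancel _ _

theorem main : Pool.Agent.Helper225.CP.TaskChain.{u} := by
  intro S _ X M n hL hE
  obtain ⟨W, h0, hn, hW⟩ := hL
  have key : ∀ j, j ≤ n → Nonempty (↥(W j) ≃ₗ[S] (Fin j → X)) := by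
    intro j
    induction j with
    | zero =>
      intro _
      have : Subsingleton ↥(W 0) := by
        rw [h0]
        infer_instance
      exact ⟨{ toFun := 0, invFun := 0, map_add' := fun _ _ => Subsingleton.elim _ _,
               map_smul' := fun _ _ => Subsingleton.elim _ _,
               left_inv := fun _ => Subsingleton.elim _ _,
               right_inv := fun _ => Subsingleton.elim _ _ }⟩
    | succ j ih =>
      intro hj
      obtain ⟨e⟩ := ih (by omega)
      obtain ⟨hle, q, hq, hk⟩ := hW j (by omega)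
      have hE' : Subsingleton (Ext X (ModuleCat.of S (W j)) 1) := by
        rcases Nat.eq_zero_or_pos j with rfl | hpos
        · have hs : Subsingleton ↥(W 0) := by
            rw [h0]
            infer_instance
          refine ext_retract_right (0 : ModuleCat.of S (W 0) ⟶ X) (0 : X ⟶ ModuleCat.of S (W 0))
            ?_ 1 hE
          ext v
          exact congrArg Subtype.val (Subsingleton.elim (α := ↥(W 0)) _ _)
        · have h1 : Subsingleton (Ext X (ModuleCat.of S (Fin j → X)) 1) :=
            (ext_pi_right j hpos 1).2 hE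
          exact ext_iso_right (LinearEquiv.toModuleIso e.symm) 1 h1
      obtain ⟨s, hs⟩ := split X M (W j) (W (j + 1)) hle q hq hk hE'
      obtain ⟨e2⟩ := step X M (W j) (W (j + 1)) hle q hk s hs
      exact ⟨(e2.trans (LinearEquiv.prodCongr e (LinearEquiv.refl S X))).trans
        ((LinearEquiv.prodComm S _ _).trans
          (Fin.consLinearEquiv S (fun _ : Fin (j + 1) => (X : Type u))))⟩
  obtain ⟨e⟩ := key n le_rfl
  rw [hn] at e
  exact ⟨Submodule.topEquiv.symm.trans e⟩

end Pool.Agent.Helper225.CP.TChain
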