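import Pool.Agent.Helper225.CP.Stmts

/-! Coinduction and finite products (author: helper119). -/

set_option autoImplicit false

namespace Pool.Agent.Helper225.CP.TCoPi

open CategoryTheory

universe u

theorem main : Pool.Agent.Helper225.CP.TaskCoPi.{u} := by
  intro T S _ _ P _ _ D ι _ N
  refine ⟨LinearEquiv.ofBijective
    { toFun := fun φ i =>
        ((LinearMap.proj (R := T) (φ := fun i => (N i : Type u)) i).comp
          (φ : (ModuleCat.restrictScalars D.f).obj (ModuleCat.of _ S) →ₗ[T] (∀ i, N i)) :
          (ModuleCat.restrictScalars D.f).obj (ModuleCat.of _ S) →ₗ[T] N i)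
      map_add' := ?_
      map_smul' := ?_ } ⟨?_, ?_⟩⟩
  · intro φ ψ
    rfl
  · intro s φ
    funext i
    refine LinearMap.ext fun x => ?_
    rfl
  · intro φ ψ h
    refine LinearMap.ext fun x => ?_
    funext i
    exact LinearMap.congr_fun (congrFun h i) x
  · intro g
    refine ⟨(LinearMap.pi (fun i => (g i : (ModuleCat.restrictScalars D.f).obj (ModuleCat.of _ S) →ₗ[T] N i)) :
      (ModuleCat.restrictScalars D.f).obj (ModuleCat.of _ S) →ₗ[T] (∀ i, N i)), ?_⟩
    funext i
    refine LinearMap.ext fun x => ?_
    rfl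

end Pool.Agent.Helper225.CP.TCoPi
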