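import Pool.Agent.Helper225.CP.Stmts

/-!
# Krull-Schmidt, existence: a module of finite length is a finite product of indecomposable modules
-/

set_option autoImplicit false

namespace Pool.Agent.Helper225.CP.TDec

open Pool.Agent.Q112.Rig

universe u

variable {R : Type u} [Ring R] {M : Type u} [AddCommGroup M] [Module R M]

/-- the submodule `U` is a finite product of indecomposable modules -/
def Good (U : Submodule R M) : Prop :=
  ∃ (ι : Type) (_ : Finite ι) (N : ι → ModuleCat.{u} R), (∀ i, Indec R (N i)) ∧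
    Nonempty (U ≃ₗ[R] (∀ i, N i))

theorem map_lt {U : Submodule R M} {V : Submodule R U} (hV : V ≠ ⊤) : V.map U.subtype < U := by
  refine lt_of_le_of_ne (Submodule.map_subtype_le U V) fun h => hV ?_
  apply Submodule.map_injective_of_injective U.injective_subtype
  rw [h, Submodule.map_subtype_top]

theorem good_all [IsArtinian R M] (U : Submodule R M) : Good U := by
  induction U using WellFoundedLT.induction with
  | ind U ih =>
    by_cases h0 : Subsingleton U
    · refine ⟨Empty, inferInstance, fun i => i.elim, fun i => i.elim, ⟨?_⟩⟩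
      exact LinearEquiv.ofBijective (0 : U →ₗ[R] (∀ i : Empty, _))
        ⟨fun a b _ => Subsingleton.elim a b, fun b => ⟨0, Subsingleton.elim _ _⟩⟩
    rw [not_subsingleton_iff_nontrivial] at h0
    by_cases h1 : Indec R U
    · refine ⟨Unit, inferInstance, fun _ => ModuleCat.of R U, fun _ => h1, ⟨?_⟩⟩
      exact (LinearEquiv.funUnique Unit R U).symm
    -- a proper decomposition
    have h2 : ∃ V W : Submodule R U, IsCompl V W ∧ V ≠ ⊥ ∧ W ≠ ⊥ := by
      by_contra hcon
      refine h1 ⟨h0, fun V W hVW => ?_⟩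
      by_contra hne
      rw [not_or] at hne
      exact hcon ⟨V, W, hVW, hne.1, hne.2⟩
    obtain ⟨V, W, hVW, hV, hW⟩ := h2
    have hV' : V ≠ ⊤ := fun h => hW (by
      have := hVW.inf_eq_bot
      rwa [h, top_inf_eq] at this)
    have hW' : W ≠ ⊤ := fun h => hV (by
      have := hVW.inf_eq_bot
      rwa [h, inf_top_eq] at this)
    obtain ⟨ι₁, f₁, N₁, i₁, ⟨e₁⟩⟩ := ih _ (map_lt hV')
    obtain ⟨ι₂, f₂, N₂, i₂, ⟨e₂⟩⟩ := ih _ (map_lt hW')
    refine ⟨ι₁ ⊕ ι₂, inferInstance, Sum.elim N₁ N₂, ?_, ⟨?_⟩⟩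
    · rintro (i | i)
      · exact i₁ i
      · exact i₂ i
    · have a₁ := (Submodule.equivMapOfInjective U.subtype U.injective_subtype V).trans e₁
      have a₂ := (Submodule.equivMapOfInjective U.subtype U.injective_subtype W).trans e₂
      exact ((Submodule.prodEquivOfIsCompl V W hVW).symm.trans (a₁.prodCongr a₂)).trans
        (LinearEquiv.sumPiEquivProdPi R ι₁ ι₂ (fun i => (Sum.elim N₁ N₂ i : ModuleCat.{u} R))).symm

theorem main : Pool.Agent.Helper225.CP.TaskDec.{u} := by
  intro R _ M hA _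
  obtain ⟨ι, _, N, hN, ⟨e⟩⟩ := good_all (R := R) (M := M) ⊤
  have f : ι ≃ Fin (Nat.card ι) := Finite.equivFin ι
  refine ⟨Nat.card ι, fun i => N (f.symm i), fun i => hN _, ⟨?_⟩⟩
  exact ((Submodule.topEquiv (R := R) (M := M)).symm.trans e).trans
    (LinearEquiv.piCongrLeft' R (fun i => (N i : Type u)) f)

end Pool.Agent.Helper225.CP.TDec
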