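import Pool.Agent.Helper225.CP.Stmts

set_option autoImplicit false

namespace Pool.Agent.Helper225.CP.TDiag

open CategoryTheory ModuleCat

universe u

variable {T S : Type u} [Ring T] [Ring S] {P : Type} [Group P] [Fintype P]

/-- the value of an element of the coinduced module -/
noncomputable def val (D : Crossed T S P) (X : ModuleCat.{u} S)
    (φ : D.coind.obj (D.res.obj X)) (s : S) : X :=
  CoextendScalars.equiv D.f (D.res.obj X) φ s

theorem val_smul (D : Crossed T S P) (X : ModuleCat.{u} S)
    (φ : D.coind.obj (D.res.obj X)) (s s' : S) : val D X (s • φ) s' = val D X φ (s' * s) := rfl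

theorem val_add (D : Crossed T S P) (X : ModuleCat.{u} S)
    (φ : D.coind.obj (D.res.obj X)) (s s' : S) :
    val D X φ (s + s') = val D X φ s + val D X φ s' :=
  (CoextendScalars.equiv D.f (D.res.obj X) φ).map_add s s'

theorem val_f (D : Crossed T S P) (X : ModuleCat.{u} S)
    (φ : D.coind.obj (D.res.obj X)) (t : T) (s : S) :
    val D X φ (D.f t * s) = D.f t • val D X φ s :=
  (CoextendScalars.equiv D.f (D.res.obj X) φ).map_smul t s

/-- the value as an additive map in the argument -/
noncomputable def valHom (D : Crossed T S P) (X : ModuleCat.{u} S)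
    (φ : D.coind.obj (D.res.obj X)) : S →+ X where
  toFun := val D X φ
  map_zero' := (CoextendScalars.equiv D.f (D.res.obj X) φ).map_zero
  map_add' := val_add D X φ

/-- the map -/
noncomputable def e0 (D : Crossed T S P) (X : ModuleCat.{u} S) :
    (D.coind.obj (D.res.obj X) : Type u) →+ (P → X) where
  toFun φ g := ((D.y g)⁻¹ : Sˣ) • val D X φ (D.y g)
  map_zero' := by
    funext g
    show ((D.y g)⁻¹ : Sˣ) • (0 : X) = 0
    simp
  map_add' φ ψ := by
    funext g
    show ((D.y g)⁻¹ : Sˣ) • (val D X φ (D.y g) + val D X ψ (D.y g)) = _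
    rw [smul_add]
    rfl

theorem e0_inj (D : Crossed T S P) (X : ModuleCat.{u} S) : Function.Injective (e0 D X) := by
  rw [injective_iff_map_eq_zero]
  intro φ h
  have h1 : ∀ g : P, val D X φ (D.y g) = 0 := by
    intro g
    have := congrFun h g
    have h2 : ((D.y g)⁻¹ : Sˣ) • val D X φ (D.y g) = 0 := this
    exact (smul_eq_zero_iff_eq _).1 h2
  apply CoextendScalars.ext
  apply LinearMap.ext
  intro s
  show val D X φ s = 0
  obtain ⟨t, ht⟩ := D.bij.2 s
  have h3 : valHom D X φ s = ∑ g, valHom D X φ (D.f (t g) * (D.y g : S)) := by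
    rw [← map_sum]
    exact congrArg _ ht.symm
  show valHom D X φ s = 0
  rw [h3]
  refine Finset.sum_eq_zero fun g _ => ?_
  show val D X φ _ = 0
  rw [val_f, h1, smul_zero]

theorem e0_surj (D : Crossed T S P) (X : ModuleCat.{u} S) : Function.Surjective (e0 D X) := by
  classical
  intro ψ
  let L : (P → T) → S := fun t : P → T => ∑ g, D.f (t g) * (D.y g : S)
  let b : (P → T) ≃ S := Equiv.ofBijective L D.bij
  have hLadd : ∀ t t' : P → T, L (t + t') = L t + L t' := by
    intro t t'
    simp [L, add_mul, Finset.sum_add_distrib]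
  have hLsmul : ∀ (c : T) (t : P → T), L (fun g => c * t g) = D.f c * L t := by
    intro c t
    simp [L, Finset.mul_sum, mul_assoc]
  have hb : ∀ t, b t = L t := fun t => rfl
  have hbs : ∀ s, L (b.symm s) = s := fun s => b.apply_symm_apply s
  have hadd : ∀ s s', b.symm (s + s') = b.symm s + b.symm s' := by
    intro s s'
    apply b.injective
    rw [b.apply_symm_apply, hb, hLadd, hbs, hbs]
  have hsmul : ∀ (c : T) (s : S), b.symm (D.f c * s) = fun g => c * b.symm s g := by
    intro c s
    apply b.injective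
    rw [b.apply_symm_apply, hb, hLsmul, hbs]
  let F : S → X := fun s => ∑ g, D.f (b.symm s g) • ((D.y g : S) • ψ g)
  have hF : ∀ s s', F (s + s') = F s + F s' := by
    intro s s'
    simp only [F, hadd, Pi.add_apply, map_add, add_smul, Finset.sum_add_distrib]
  have hF' : ∀ (c : T) (s : S), F (D.f c * s) = D.f c • F s := by
    intro c s
    simp only [F, hsmul, map_mul, mul_smul, Finset.smul_sum]
  let φ : (restrictScalars D.f).obj (of _ S) →ₗ[T] D.res.obj X :=
    { toFun := fun s => F s
      map_add' := fun s s' => hF s s'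
      map_smul' := fun c s => hF' c s }
  refine ⟨(CoextendScalars.equiv D.f (D.res.obj X)).symm φ, ?_⟩
  funext g
  show ((D.y g)⁻¹ : Sˣ) • F (D.y g) = ψ g
  have h1 : b.symm (D.y g : S) = Pi.single g 1 := by
    apply b.injective
    rw [b.apply_symm_apply, hb]
    show _ = ∑ g', D.f ((Pi.single g (1 : T) : P → T) g') * (D.y g' : S)
    rw [Finset.sum_eq_single g]
    · simp
    · intro g' _ hg'
      simp [Pi.single_eq_of_ne hg']
    · simp
  have h2 : F (D.y g) = (D.y g : S) • ψ g := by
    show ∑ g', D.f (b.symm (D.y g : S) g') • ((D.y g' : S) • ψ g') = _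
    rw [h1, Finset.sum_eq_single g]
    · simp
    · intro g' _ hg'
      simp [Pi.single_eq_of_ne hg']
    · simp
  rw [h2]
  show ((D.y g)⁻¹ : Sˣ) • ((D.y g) • ψ g) = ψ g
  rw [inv_smul_smul]

theorem main : Pool.Agent.Helper225.CP.TaskDiag.{u} := by
  intro T S _ _ P _ _ D X
  refine ⟨AddEquiv.ofBijective (e0 D X) ⟨e0_inj D X, e0_surj D X⟩, ?_⟩
  intro t h φ g
  show ((D.y g)⁻¹ : Sˣ) • val D X ((D.f t * (D.y h : S)) • φ) (D.y g) =
    (D.f t * (D.y h : S)) • (((D.y (g * h))⁻¹ : Sˣ) • val D X φ (D.y (g * h)))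
  rw [val_smul]
  obtain ⟨t', ht'⟩ := D.conj g t
  obtain ⟨t'', ht''⟩ := D.mul g h
  have h1 : (D.y g : S) * (D.f t * (D.y h : S)) = D.f (t' * t'') * (D.y (g * h) : S) := by
    rw [← mul_assoc, ht', mul_assoc, ht'', map_mul, mul_assoc]
  rw [h1, val_f, Units.smul_def, Units.smul_def, ← mul_smul, ← mul_smul]
  congr 1
  have h2 : D.f (t' * t'') = (D.y g : S) * (D.f t * (D.y h : S)) * ((D.y (g * h))⁻¹ : Sˣ) := by
    rw [h1, mul_assoc, Units.mul_inv, mul_one]
  rw [h2, mul_assoc, ← mul_assoc, Units.inv_mul, one_mul]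

end Pool.Agent.Helper225.CP.TDiag
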