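import Pool.Agent.Helper225.CP.Stmts

set_option autoImplicit false

namespace Pool.Agent.Helper225.CP.TExch

open CategoryTheory Filter Pool.Agent.Q112.Rig

universe u

/-- Fitting: an endomorphism of an indecomposable module of finite length is bijective or nilpotent -/
theorem fitting {R X : Type u} [Ring R] [AddCommGroup X] [Module R X] [IsArtinian R X]
    [IsNoetherian R X] (hX : Indec R X) (f : Module.End R X) : IsUnit f ∨ IsNilpotent f := by
  obtain ⟨n, hn, hn1⟩ := ((f.eventually_isCompl_ker_pow_range_pow).and (eventually_ge_atTop 1)).exists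
  rcases hX.2 _ _ hn with h | h
  · left
    rw [Module.End.isUnit_iff]
    have hinj : Function.Injective f := by
      rw [← LinearMap.ker_eq_bot, eq_bot_iff, ← h]
      intro x hx
      rw [LinearMap.mem_ker] at hx ⊢
      obtain ⟨k, rfl⟩ : ∃ k, n = k + 1 := ⟨n - 1, by omega⟩
      rw [pow_succ, Module.End.mul_apply, hx, map_zero]
    exact ⟨hinj, IsArtinian.surjective_of_injective_endomorphism f hinj⟩
  · right
    exact ⟨n, LinearMap.range_eq_bot.1 h⟩

theorem local_end {R X : Type u} [Ring R] [AddCommGroup X] [Module R X] [IsArtinian R X]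
    [IsNoetherian R X] (hX : Indec R X) (f g : Module.End R X) (h : f + g = 1) :
    IsUnit f ∨ IsUnit g := by
  rcases fitting hX f with hf | hf
  · exact Or.inl hf
  · right
    have : g = 1 - f := by rw [← h]; abel
    rw [this]
    exact hf.isUnit_one_sub

theorem exists_unit {R X : Type u} [Ring R] [AddCommGroup X] [Module R X] [IsArtinian R X]
    [IsNoetherian R X] (hX : Indec R X) {ι : Type} [DecidableEq ι] (e : ι → Module.End R X)
    (t : Finset ι) : IsUnit (∑ i ∈ t, e i) → ∃ i ∈ t, IsUnit (e i) := by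
  haveI := hX.1
  induction t using Finset.induction_on with
  | empty =>
    intro h
    rw [Finset.sum_empty] at h
    exact absurd h not_isUnit_zero
  | insert a t ha ih =>
    intro h
    rw [Finset.sum_insert ha] at h
    obtain ⟨u, hu⟩ := h
    have h1 : (↑u⁻¹ : Module.End R X) * e a + ↑u⁻¹ * ∑ i ∈ t, e i = 1 := by
      rw [← mul_add, ← hu, Units.inv_mul]
    rcases local_end hX _ _ h1 with h2 | h2
    · refine ⟨a, Finset.mem_insert_self _ _, ?_⟩
      exact (Units.isUnit_units_mul _ _).1 h2
    · obtain ⟨i, hi, hi'⟩ := ih ((Units.isUnit_units_mul _ _).1 h2)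
      exact ⟨i, Finset.mem_insert_of_mem hi, hi'⟩

theorem main : Pool.Agent.Helper225.CP.TaskExch.{u} := by
  intro R _ X hA hN hX ι _ Y hY s r hrs
  classical
  haveI := Fintype.ofFinite ι
  haveI := hX.1
  haveI : IsArtinian R X := hA
  haveI : IsNoetherian R X := hN
  let e : ι → Module.End R X := fun i =>
    r ∘ₗ LinearMap.single R (fun i => (Y i : Type u)) i ∘ₗ LinearMap.proj i ∘ₗ s
  have hsum : ∑ i, e i = 1 := by
    ext x
    rw [LinearMap.sum_apply]
    simp only [e, LinearMap.comp_apply, LinearMap.proj_apply, Module.End.one_apply]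
    rw [← map_sum]
    have : ∑ i, LinearMap.single R (fun i => (Y i : Type u)) i (s x i) = s x := by
      simp only [LinearMap.coe_single]
      exact Finset.univ_sum_single (s x)
    rw [this]
    exact LinearMap.congr_fun hrs x
  obtain ⟨i, -, hi⟩ := exists_unit hX e Finset.univ (by rw [hsum]; exact isUnit_one)
  refine ⟨i, ?_⟩
  obtain ⟨u, hu⟩ := hi
  let a : X →ₗ[R] Y i := LinearMap.proj i ∘ₗ s
  let b : Y i →ₗ[R] X := (↑u⁻¹ : Module.End R X) ∘ₗ r ∘ₗ LinearMap.single R (fun i => (Y i : Type u)) i
  have hba : ∀ x, b (a x) = x := by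
    intro x
    have h1 : (↑u⁻¹ * ↑u : Module.End R X) x = x := by
      rw [Units.inv_mul]
      rfl
    rw [hu] at h1
    exact h1
  have hcompl : IsCompl (LinearMap.range a) (LinearMap.ker b) := by
    constructor
    · rw [Submodule.disjoint_def]
      rintro x ⟨z, rfl⟩ hx
      rw [LinearMap.mem_ker, hba] at hx
      rw [hx, map_zero]
    · rw [codisjoint_iff, eq_top_iff]
      intro y _
      have : y = a (b y) + (y - a (b y)) := by abel
      rw [this]
      refine Submodule.add_mem_sup ⟨b y, rfl⟩ ?_
      rw [LinearMap.mem_ker, map_sub, hba, sub_self]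
  rcases (hY i).2 _ _ hcompl with h | h
  · exfalso
    obtain ⟨x, hx⟩ := exists_ne (0 : X)
    apply hx
    rw [← hba x]
    have : a = 0 := LinearMap.range_eq_bot.1 h
    rw [this, LinearMap.zero_apply, map_zero]
  · have hbij : Function.Bijective b :=
      ⟨LinearMap.ker_eq_bot.1 h, fun x => ⟨a x, hba x⟩⟩
    exact ⟨(LinearEquiv.ofBijective b hbij).symm⟩

end Pool.Agent.Helper225.CP.TExch
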