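import Pool.Agent.Helper225.CP.Stmts

/-! `Ext` and the adjunction of restriction and coinduction. -/

set_option autoImplicit false

namespace Pool.Agent.Helper225.CP.TExtAdj

open CategoryTheory Abelian Limits Pool.Agent.Q112.Rig Pool.Agent.Helper225.CP

universe u

/-- restriction of scalars maps short exact sequences to short exact sequences -/
theorem map_shortExact {T S : Type u} [Ring T] [Ring S] (f : T →+* S)
    {C : ShortComplex (ModuleCat.{u} S)} (hC : C.ShortExact) :
    (C.map (ModuleCat.restrictScalars.{u} f)).ShortExact := by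
  have hF : PreservesFiniteLimits (ModuleCat.restrictScalars.{u} f) :=
    ⟨fun J _ _ => ⟨inferInstance⟩⟩
  have hG : PreservesFiniteColimits (ModuleCat.restrictScalars.{u} f) :=
    ⟨fun J _ _ => ⟨inferInstance⟩⟩
  exact hC.map_of_exact _

theorem main : Pool.Agent.Helper225.CP.TaskExtAdj.{u} := by
  intro hRP T S _ _ P _ _ D i
  have adj : D.res ⊣ D.coind := ModuleCat.restrictCoextendScalarsAdj.{u} D.f
  induction i with
  | zero =>
    intro X N
    set C : ShortComplex (ModuleCat.{u} S) :=
      ShortComplex.mk (kernel.ι (Projective.π X)) (Projective.π X) (kernel.condition _) with hC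
    have hex : C.ShortExact :=
      { exact := ShortComplex.exact_of_f_is_kernel _ (kernelIsKernel (Projective.π X))
        mono_f := by dsimp [C]; infer_instance
        epi_g := by dsimp [C]; infer_instance }
    have h2 : Projective C.X₂ := by dsimp [C]; infer_instance
    have h3 : Projective (C.map D.res).X₂ := hRP T S P D _ h2
    have h4 := ext_one_iff hex (D.coind.obj N)
    have h5 := ext_one_iff (map_shortExact D.f hex) N
    refine (h5 : Subsingleton (Ext (D.res.obj X) N 1) ↔ _).trans
      (Iff.trans ?_ (h4 : Subsingleton (Ext X (D.coind.obj N) 1) ↔ _).symm)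
    constructor
    · intro H f
      obtain ⟨g, hg⟩ := H ((adj.homEquiv C.X₁ N).symm f)
      have hg' : ∃ g' : D.res.obj C.X₂ ⟶ N, D.res.map C.f ≫ g' = (adj.homEquiv C.X₁ N).symm f :=
        ⟨g, hg⟩
      obtain ⟨g', hg'⟩ := hg'
      refine ⟨adj.homEquiv _ _ g', ?_⟩
      rw [← adj.homEquiv_naturality_left, hg', Equiv.apply_symm_apply]
    · intro H f
      obtain ⟨g, hg⟩ := H (adj.homEquiv _ _ f)
      refine ⟨(adj.homEquiv _ _).symm g, ?_⟩
      have h6 := adj.homEquiv_naturality_left_symm C.f g
      rw [hg, Equiv.symm_apply_apply] at h6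
      exact h6.symm
  | succ i ih =>
    intro X N
    set C : ShortComplex (ModuleCat.{u} S) :=
      ShortComplex.mk (kernel.ι (Projective.π X)) (Projective.π X) (kernel.condition _) with hC
    have hex : C.ShortExact :=
      { exact := ShortComplex.exact_of_f_is_kernel _ (kernelIsKernel (Projective.π X))
        mono_f := by dsimp [C]; infer_instance
        epi_g := by dsimp [C]; infer_instance }
    have h2 : Projective C.X₂ := by dsimp [C]; infer_instance
    have h3 : Projective (C.map D.res).X₂ := hRP T S P D _ h2
    have h4 := ext_succ_iff hex (D.coind.obj N) i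
    have h5 := ext_succ_iff (map_shortExact D.f hex) N i
    exact (h5 : Subsingleton (Ext (D.res.obj X) N (i + 2)) ↔ _).trans
      ((ih C.X₁ N).trans (h4 : Subsingleton (Ext X (D.coind.obj N) (i + 2)) ↔ _).symm)

end Pool.Agent.Helper225.CP.TExtAdj
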