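import Mathlib
import Pool.Agent.Helper225.CP.Stmts

set_option autoImplicit false

namespace Pool.Agent.Helper225.CP.TFin

universe u

theorem main : Pool.Agent.Helper225.CP.TaskFin.{u} := by
  intro T S _ _ P _ _ D hT X hX
  let _ : Module T S := Module.compHom S D.f
  let _ : Module T X := Module.compHom X D.f
  have : IsScalarTower T S X := ⟨fun t s x => by
    show (D.f t * s) • x = D.f t • (s • x)
    rw [mul_smul]⟩
  have hfin : Module.Finite T X := by
    classical
    obtain ⟨s, hs⟩ := hX.fg_top
    refine ⟨⟨(Finset.univ ×ˢ s).image fun q : P × X => (D.y q.1 : S) • q.2, ?_⟩⟩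
    rw [eq_top_iff]
    intro v _
    have hv : v ∈ Submodule.span S (s : Set X) := by rw [hs]; trivial
    rw [Submodule.mem_span_finset] at hv
    obtain ⟨c, -, rfl⟩ := hv
    refine Submodule.sum_mem _ fun a ha => ?_
    obtain ⟨t, ht⟩ := D.bij.2 (c a)
    have e : c a • a = ∑ g, t g • ((D.y g : S) • a) := by
      rw [← ht]
      simp only [Finset.sum_smul]
      refine Finset.sum_congr rfl fun g _ => ?_
      show (D.f (t g) * (D.y g : S)) • a = D.f (t g) • ((D.y g : S) • a)
      rw [mul_smul]
    rw [e]
    refine Submodule.sum_mem _ fun g _ => Submodule.smul_mem _ _ (Submodule.subset_span ?_)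
    rw [Finset.coe_image]
    exact ⟨(g, a), by simp [ha], rfl⟩
  have hA : IsArtinian T X := inferInstance
  have hN : IsNoetherian T X := inferInstance
  exact ⟨hfin, isArtinian_of_tower T hA, isNoetherian_of_tower T hN⟩

end Pool.Agent.Helper225.CP.TFin
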