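import Pool.Agent.Helper225.CP.Stmts
import Pool.Agent.Q112.RigG.Fixed

set_option autoImplicit false

namespace Pool.Agent.Helper225.CP.TFlag

variable {p : ℕ} [Fact p.Prime] {P : Type} [Group P]

/-- right translation -/
def tr (h : P) : (P → ZMod p) →ₗ[ZMod p] (P → ZMod p) where
  toFun f := fun g => f (g * h)
  map_add' _ _ := rfl
  map_smul' _ _ := rfl

theorem step [Finite P] (hP : IsPGroup p P) (W : Submodule (ZMod p) (P → ZMod p)) (hW : W ≠ ⊤)
    (hst : ∀ h : P, ∀ f ∈ W, tr h f ∈ W) : ∃ v, v ∉ W ∧ ∀ h : P, tr h v - v ∈ W := by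
  obtain ⟨u, hu⟩ : ∃ u, u ∉ W := by
    by_contra hcon
    push Not at hcon
    exact hW (Submodule.eq_top_iff'.2 hcon)
  have st : ∀ h : P, W ≤ Submodule.comap (tr h) W := fun h f hf => hst h f hf
  let a : P →* AddMonoid.End ((P → ZMod p) ⧸ W) :=
    { toFun := fun h => (W.mapQ W (tr h) (st h)).toAddMonoidHom
      map_one' := by
        apply AddMonoidHom.ext
        intro x
        obtain ⟨v, rfl⟩ := Submodule.mkQ_surjective W x
        change W.mapQ W (tr 1) (st 1) (W.mkQ v) = W.mkQ v
        rw [Submodule.mkQ_apply, Submodule.mapQ_apply]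
        congr 1
        funext g
        change v (g * 1) = v g
        rw [mul_one]
      map_mul' := by
        intro h h'
        apply AddMonoidHom.ext
        intro x
        obtain ⟨v, rfl⟩ := Submodule.mkQ_surjective W x
        change W.mapQ W (tr (h * h')) (st (h * h')) (W.mkQ v) =
          W.mapQ W (tr h) (st h) (W.mapQ W (tr h') (st h') (W.mkQ v))
        rw [Submodule.mkQ_apply, Submodule.mapQ_apply, Submodule.mapQ_apply, Submodule.mapQ_apply]
        congr 1
        funext g
        change v (g * (h * h')) = v (g * h * h')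
        rw [mul_assoc] }
  have hne : W.mkQ u ≠ 0 := by
    intro h
    rw [Submodule.mkQ_apply, Submodule.Quotient.mk_eq_zero] at h
    exact hu h
  obtain ⟨w, _, hw0, hw⟩ := Pool.Agent.Q112.RigG.exists_fixed_aux hP a ⊤
    (fun _ _ _ => AddSubgroup.mem_top _) (W.mkQ u) (AddSubgroup.mem_top _) hne
  obtain ⟨v, rfl⟩ := Submodule.mkQ_surjective W w
  refine ⟨v, fun hv => hw0 ?_, fun h => ?_⟩
  · rw [Submodule.mkQ_apply, Submodule.Quotient.mk_eq_zero]
    exact hv
  · have h1 := hw h
    change W.mapQ W (tr h) (st h) (W.mkQ v) = W.mkQ v at h1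
    rw [Submodule.mkQ_apply, Submodule.mapQ_apply] at h1
    exact (Submodule.Quotient.eq W).1 h1

theorem chain [Fintype P] (hP : IsPGroup p P) (k : ℕ) (hk : k ≤ Fintype.card P) :
    ∃ w : Fin k → P → ZMod p, LinearIndependent (ZMod p) w ∧
      ∀ j (h : P), (fun g => w j (g * h)) - w j ∈
        Submodule.span (ZMod p) {x | ∃ i < j, x = w i} := by
  induction k with
  | zero =>
    exact ⟨fun j => Fin.elim0 j, linearIndependent_empty_type, fun j => Fin.elim0 j⟩
  | succ k ih =>
    obtain ⟨w, hw, hw2⟩ := ih (by omega)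
    have hfr : Module.finrank (ZMod p) (Submodule.span (ZMod p) (Set.range w)) = k := by
      rw [finrank_span_eq_card hw, Fintype.card_fin]
    have hW : Submodule.span (ZMod p) (Set.range w) ≠ ⊤ := by
      intro h
      rw [h, finrank_top, Module.finrank_fintype_fun_eq_card] at hfr
      omega
    have hgen : ∀ j, w j ∈ Submodule.span (ZMod p) (Set.range w) := fun j =>
      Submodule.subset_span ⟨j, rfl⟩
    have hst : ∀ h : P, ∀ f ∈ Submodule.span (ZMod p) (Set.range w),
        tr h f ∈ Submodule.span (ZMod p) (Set.range w) := by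
      intro h f hf
      induction hf using Submodule.span_induction with
      | mem x hx =>
        obtain ⟨j, rfl⟩ := hx
        have h1 : tr h (w j) = ((fun g => w j (g * h)) - w j) + w j := by
          rw [sub_add_cancel]
          rfl
        rw [h1]
        refine Submodule.add_mem _ ?_ (hgen j)
        refine Submodule.span_mono ?_ (hw2 j h)
        rintro x ⟨i, _, rfl⟩
        exact ⟨i, rfl⟩
      | zero =>
        rw [map_zero]
        exact Submodule.zero_mem _
      | add x y _ _ hx hy =>
        rw [map_add]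
        exact Submodule.add_mem _ hx hy
      | smul c x _ hx =>
        rw [map_smul]
        exact Submodule.smul_mem _ c hx
    obtain ⟨v, hv, hv2⟩ := step hP _ hW hst
    refine ⟨Fin.snoc w v, linearIndependent_finSnoc.2 ⟨hw, hv⟩, ?_⟩
    intro j h
    refine Fin.lastCases ?_ (fun j => ?_) j
    · simp only [Fin.snoc_last]
      refine Submodule.span_mono ?_ (hv2 h)
      rintro x ⟨i, rfl⟩
      exact ⟨i.castSucc, Fin.castSucc_lt_last i, by simp only [Fin.snoc_castSucc]⟩
    · simp only [Fin.snoc_castSucc]
      refine Submodule.span_mono ?_ (hw2 j h)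
      rintro x ⟨i, hi, rfl⟩
      exact ⟨i.castSucc, by simpa using hi, by simp only [Fin.snoc_castSucc]⟩

theorem main : Pool.Agent.Helper225.CP.TaskFlag := by
  intro p _ P _ _ hP
  exact chain hP _ le_rfl

end Pool.Agent.Helper225.CP.TFlag
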