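import Mathlib
import Pool.Agent.Helper225.CP.Stmts2

set_option autoImplicit false
set_option linter.unusedSectionVars false

namespace Pool.Agent.Helper225.CP.TGroup

universe u

variable {K : Type u} [Ring K] {G : Type} [Group G] (N : Subgroup G) [N.Normal]

private noncomputable def yy (K : Type u) [Ring K] (q : G ⧸ N) : (MonoidAlgebra K G)ˣ :=
  Units.map (MonoidAlgebra.of K G) (toUnits (Quotient.out q))

private theorem yy_coe (q : G ⧸ N) :
    ((yy N K q : (MonoidAlgebra K G)ˣ) : MonoidAlgebra K G) =
      MonoidAlgebra.single (Quotient.out q) 1 := rfl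

private noncomputable def ff (K : Type u) [Ring K] (N : Subgroup G) :
    MonoidAlgebra K N →+* MonoidAlgebra K G :=
  MonoidAlgebra.mapDomainRingHom K N.subtype

private theorem ff_single (n : N) (a : K) :
    ff K N (MonoidAlgebra.single n a) = MonoidAlgebra.single (n : G) a := by
  change MonoidAlgebra.mapDomain _ _ = _
  rw [MonoidAlgebra.mapDomain_single]
  rfl

private theorem conj_aux (g : G) (t : MonoidAlgebra K N) :
    MonoidAlgebra.single g (1 : K) * ff K N t =
      ff K N (MonoidAlgebra.mapDomain (MulAut.conjNormal g : N ≃* N) t) *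
        MonoidAlgebra.single g (1 : K) := by
  induction t using MonoidAlgebra.induction_linear with
  | zero => simp
  | add x y hx hy => rw [map_add, mul_add, hx, hy, MonoidAlgebra.mapDomain_add, map_add, add_mul]
  | single n a =>
    rw [MonoidAlgebra.mapDomain_single, ff_single, ff_single, MonoidAlgebra.single_mul_single,
      MonoidAlgebra.single_mul_single, MulAut.conjNormal_apply]
    simp

private theorem ff_coeff (t : MonoidAlgebra K N) (z : G) (hz : z ∈ N) :
    (ff K N t).coeff z = t.coeff ⟨z, hz⟩ := by
  change (Finsupp.mapDomain _ t.coeff) z = _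
  exact Finsupp.mapDomain_apply (f := (N.subtype : N → G)) Subtype.val_injective t.coeff ⟨z, hz⟩

private theorem ff_coeff' (t : MonoidAlgebra K N) (z : G) (hz : z ∉ N) :
    (ff K N t).coeff z = 0 := by
  change (Finsupp.mapDomain _ t.coeff) z = _
  refine Finsupp.mapDomain_of_notMem_range _ _ ?_
  rintro ⟨n, rfl⟩
  exact hz n.2

private theorem hmem (x : G) : x * (Quotient.out (x : G ⧸ N))⁻¹ ∈ N := by
  rw [← div_eq_mul_inv, ← QuotientGroup.eq_iff_div_mem]
  exact (QuotientGroup.out_eq' _).symm

private theorem sum_coeff [Fintype (G ⧸ N)] (t : G ⧸ N → MonoidAlgebra K N) (x : G) :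
    (∑ q, ff K N (t q) * (yy N K q : MonoidAlgebra K G)).coeff x =
      (t (x : G ⧸ N)).coeff ⟨x * (Quotient.out (x : G ⧸ N))⁻¹, hmem N x⟩ := by
  rw [MonoidAlgebra.coeff_sum, Finsupp.finsetSum_apply]
  rw [Finset.sum_eq_single (x : G ⧸ N)]
  · rw [yy_coe, MonoidAlgebra.coeff_mul_single_apply, mul_one, ff_coeff N _ _ (hmem N x)]
  · intro q _ hq
    rw [yy_coe, MonoidAlgebra.coeff_mul_single_apply, mul_one]
    refine ff_coeff' N _ _ fun h => hq ?_
    rw [← div_eq_mul_inv, ← QuotientGroup.eq_iff_div_mem, QuotientGroup.out_eq'] at h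
    exact h.symm
  · intro h
    exact absurd (Finset.mem_univ _) h

theorem main : Pool.Agent.Helper225.CP.TaskGroup := by
  intro K _ G _ N _ _
  refine ⟨{ f := ff K N, y := yy N K, conj := ?_, conj' := ?_, mul := ?_, bij := ?_ }⟩
  · intro g t
    exact ⟨_, conj_aux N _ t⟩
  · intro g t
    refine ⟨MonoidAlgebra.mapDomain (MulAut.conjNormal (Quotient.out g)⁻¹ : N ≃* N) t, ?_⟩
    rw [yy_coe, conj_aux N]
    congr 2
    induction t using MonoidAlgebra.induction_linear with
    | zero => simp
    | add x y hx hy => simp only [MonoidAlgebra.mapDomain_add, ← hx, ← hy]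
    | single n a =>
      rw [MonoidAlgebra.mapDomain_single, MonoidAlgebra.mapDomain_single]
      congr 1
      ext
      simp
  · intro g h
    have hm : Quotient.out g * Quotient.out h * (Quotient.out (g * h))⁻¹ ∈ N := by
      rw [← div_eq_mul_inv, ← QuotientGroup.eq_iff_div_mem, QuotientGroup.mk_mul,
        QuotientGroup.out_eq', QuotientGroup.out_eq', QuotientGroup.out_eq']
    refine ⟨MonoidAlgebra.single ⟨_, hm⟩ 1, ?_⟩
    rw [yy_coe, yy_coe, yy_coe, ff_single, MonoidAlgebra.single_mul_single,
      MonoidAlgebra.single_mul_single]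
    simp
  · constructor
    · intro t t' h
      funext q
      apply MonoidAlgebra.coeff_injective
      ext n
      have e : ((((n : G) * Quotient.out q : G)) : G ⧸ N) = q := by
        rw [QuotientGroup.mk_mul, QuotientGroup.out_eq', (QuotientGroup.eq_one_iff (n : G)).2 n.2,
          one_mul]
      have h1 := congrArg (fun u : MonoidAlgebra K G => u.coeff ((n : G) * Quotient.out q)) h
      simp only [sum_coeff] at h1
      have h2 : ∀ s : G ⧸ N → MonoidAlgebra K N,
          (s ((((n : G) * Quotient.out q : G)) : G ⧸ N)).coeff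
            ⟨(n : G) * Quotient.out q * (Quotient.out ((((n : G) * Quotient.out q : G)) : G ⧸ N))⁻¹,
              hmem N _⟩ = (s q).coeff n := by
        intro s
        congr 1
        · rw [e]
        · apply Subtype.ext
          simp [e]
      rw [h2 t, h2 t'] at h1
      exact h1
    · intro v
      refine ⟨fun q => MonoidAlgebra.ofCoeff (Finsupp.comapDomain (fun n : N => (n : G) * Quotient.out q)
        v.coeff (fun a _ b _ hab => Subtype.ext (mul_right_cancel hab))), ?_⟩
      apply MonoidAlgebra.coeff_injective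
      ext x
      rw [sum_coeff, MonoidAlgebra.coeff_ofCoeff]
      change v.coeff (x * (Quotient.out (x : G ⧸ N))⁻¹ * Quotient.out (x : G ⧸ N)) = v.coeff x
      rw [inv_mul_cancel_right]

theorem art : Pool.Agent.Helper225.CP.TaskArt := by
  intro K _ B _ _ _
  have h1 : IsArtinian K Bᵐᵒᵖ := inferInstance
  exact isArtinian_of_tower K h1

end Pool.Agent.Helper225.CP.TGroup
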