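import Pool.Agent.Helper225.CP.Stmts

/-!
MP_b2fb47_al, blueprint of helper225: products with equal multiplicities (task TaskIso).
-/

set_option autoImplicit false

namespace Pool.Agent.Helper225.CP.TIso

universe u

variable {R : Type u} [Ring R] {s r : ℕ}

/-- currying and swapping -/
def swap (L : Fin r → ModuleCat.{u} R) (m : Fin s → Fin r → ℕ) (a : Fin s → ℕ) :
    (∀ x : (Σ i, Fin (a i)), ∀ j : Fin r, Fin (m x.1 j) → L j) ≃ₗ[R]
      (∀ j : Fin r, (Σ x : (Σ i, Fin (a i)), Fin (m x.1 j)) → L j) where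
  toFun f j y := f y.1 j y.2
  invFun g x j k := g j ⟨x, k⟩
  map_add' _ _ := rfl
  map_smul' _ _ := rfl
  left_inv _ := rfl
  right_inv _ := rfl

theorem card_eq (m : Fin s → Fin r → ℕ) (a : Fin s → ℕ) (j : Fin r) :
    Fintype.card (Σ x : (Σ i, Fin (a i)), Fin (m x.1 j)) = ∑ i, a i * m i j := by
  rw [Fintype.card_sigma, Fintype.sum_sigma]
  simp

theorem main : Pool.Agent.Helper225.CP.TaskIso.{u} := by
  intro R _ s r M L m h a b hab
  have E : ∀ a : Fin s → ℕ, (∀ x : (Σ i, Fin (a i)), M x.1) ≃ₗ[R]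
      (∀ x : (Σ i, Fin (a i)), ∀ j : Fin r, Fin (m x.1 j) → L j) := fun a =>
    LinearEquiv.piCongrRight fun x => Classical.choice (h x.1)
  have F : (∀ j : Fin r, (Σ x : (Σ i, Fin (a i)), Fin (m x.1 j)) → L j) ≃ₗ[R]
      (∀ j : Fin r, (Σ x : (Σ i, Fin (b i)), Fin (m x.1 j)) → L j) :=
    LinearEquiv.piCongrRight fun j => LinearEquiv.funCongrLeft R (L j)
      (Fintype.equivOfCardEq (by rw [card_eq, card_eq, hab j]))
  exact ⟨(((E a).trans (swap L m a)).trans F).trans ((E b).trans (swap L m b)).symm⟩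

end Pool.Agent.Helper225.CP.TIso
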