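import Pool.Agent.Helper225.CP.Stmts

set_option autoImplicit false

/-! Proof of `TaskLayers` (helper95). -/

namespace Pool.Agent.Helper225.CP.TLayers

open Pool.Agent.Helper225.CP

universe u

private theorem flagCoeffs {p : ℕ} [Fact p.Prime] {P : Type} [Group P] [Fintype P] [DecidableEq P]
    (w : Fin (Fintype.card P) → P → ZMod p) (hw : LinearIndependent (ZMod p) w)
    (hw2 : ∀ j (h : P), (fun g => w j (g * h)) - w j ∈
      Submodule.span (ZMod p) {x | ∃ i < j, x = w i}) :
    ∃ v : Fin (Fintype.card P) → P → ZMod p,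
      (∀ g g', ∑ i, w i g * v i g' = if g = g' then 1 else 0) ∧
      (∀ l i, ∑ g, v l g * w i g = if l = i then 1 else 0) ∧
      (∀ l i h, i ≤ l → ∑ g, v l g * w i (g * h) = if l = i then 1 else 0) := by
  have : Nonempty (Fin (Fintype.card P)) := ⟨⟨0, Fintype.card_pos⟩⟩
  let b : Module.Basis (Fin (Fintype.card P)) (ZMod p) (P → ZMod p) :=
    basisOfLinearIndependentOfCardEqFinrank hw (by simp)
  have hb : ∀ i, b i = w i := fun i => by
    simp [b]
  have hlin : ∀ (l : Fin (Fintype.card P)) (x : P → ZMod p),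
      ∑ g, b.repr (Pi.single g 1) l * x g = b.repr x l := by
    intro l x
    have hx : x = ∑ g, x g • (Pi.single g (1 : ZMod p) : P → ZMod p) := by
      ext g'
      simp [Finset.sum_apply, Pi.single_apply]
    conv_rhs => rw [hx]
    rw [map_sum, Finsupp.finset_sum_apply]
    refine Finset.sum_congr rfl fun g _ => ?_
    rw [map_smul, Finsupp.smul_apply, smul_eq_mul, mul_comm]
  have hrepr : ∀ l i, b.repr (w i) l = if l = i then 1 else 0 := by
    intro l i
    rw [← hb i, b.repr_self, Finsupp.single_apply]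
    by_cases h : i = l
    · simp [h]
    · simp [h, Ne.symm h]
  refine ⟨fun l g => b.repr (Pi.single g 1) l, ?_, ?_, ?_⟩
  · intro g g'
    have h1 := b.sum_repr (Pi.single g' (1 : ZMod p) : P → ZMod p)
    have h2 := congrFun h1 g
    rw [Finset.sum_apply] at h2
    simp only [Pi.smul_apply, smul_eq_mul, hb] at h2
    rw [Pi.single_apply] at h2
    rw [← h2]
    exact Finset.sum_congr rfl fun i _ => mul_comm _ _
  · intro l i
    rw [hlin l (w i)]
    exact hrepr l i
  · intro l i h hil
    rw [hlin l (fun g => w i (g * h))]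
    have h3 : (fun g => w i (g * h)) = w i + ((fun g => w i (g * h)) - w i) := by abel
    rw [h3, map_add, Finsupp.add_apply, hrepr]
    have h4 : ∀ y ∈ Submodule.span (ZMod p) {x | ∃ i' < i, x = w i'}, b.repr y l = 0 := by
      intro y hy
      induction hy using Submodule.span_induction with
      | mem x hx =>
        obtain ⟨i', hi', rfl⟩ := hx
        rw [hrepr, if_neg]
        intro h5
        rw [h5] at hil
        exact absurd hi' (not_lt.mpr hil)
      | zero => simp
      | add x y _ _ hx hy => rw [map_add, Finsupp.add_apply, hx, hy, add_zero]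
      | smul a x _ hx => rw [map_smul, Finsupp.smul_apply, hx, smul_zero]
    rw [h4 _ (hw2 i h), add_zero]

private theorem layersAbs {p : ℕ} {P : Type} [Group P] [Fintype P] [DecidableEq P]
    {S : Type u} [Ring S] (X M : ModuleCat.{u} S) [Module (ZMod p) X]
    (e : M ≃+ (P → X)) (n : ℕ) (w v : Fin n → P → ZMod p)
    (h1 : ∀ g g', ∑ i, w i g * v i g' = if g = g' then 1 else 0)
    (h2 : ∀ l i, ∑ g, v l g * w i g = if l = i then 1 else 0)
    (h3 : ∀ l i h, i ≤ l → ∑ g, v l g * w i (g * h) = if l = i then 1 else 0)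
    (G : P → Set S) (hG : ∀ h, ∀ s ∈ G h, ∀ φ g, e (s • φ) g = s • e φ (g * h))
    (hS : ∀ s : S, ∃ t : P → S, (∀ h, t h ∈ G h) ∧ s = ∑ h, t h) :
    Layers S X M n := by
  classical
  -- coefficients
  let c : Fin n → M →+ X := fun l =>
    { toFun := fun φ => ∑ g, v l g • e φ g
      map_zero' := by simp
      map_add' := fun φ ψ => by simp [Finset.sum_add_distrib] }
  have hc : ∀ l φ, c l φ = ∑ g, v l g • e φ g := fun l φ => rfl
  have hrec : ∀ φ g, e φ g = ∑ i, w i g • c i φ := by
    intro φ g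
    simp only [hc, Finset.smul_sum, smul_smul]
    rw [Finset.sum_comm]
    simp only [← Finset.sum_smul, h1]
    simp
  have hcomm : ∀ (s : S) (a : ZMod p) (x : X), s • a • x = a • s • x := fun s a x =>
    ZMod.map_smul (DistribMulAction.toAddMonoidHom X s) a x
  -- the key formula
  have hK1 : ∀ (l : Fin n) (φ : M), (∀ i, l < i → c i φ = 0) → ∀ h, ∀ s ∈ G h,
      c l (s • φ) = s • c l φ := by
    intro l φ hφ h s hs
    have e1 : c l (s • φ) = ∑ i, (∑ g, v l g * w i (g * h)) • s • c i φ := by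
      rw [hc]
      simp only [hG h s hs]
      simp only [hrec φ, Finset.smul_sum, Finset.sum_smul, hcomm s, smul_smul]
      rw [Finset.sum_comm]
    rw [e1, Finset.sum_eq_single l]
    · rw [h3 l l h le_rfl, if_pos rfl, one_smul]
    · intro i _ hil
      rcases lt_or_gt_of_ne hil with h4 | h4
      · rw [h3 l i h h4.le, if_neg (Ne.symm hil), zero_smul]
      · rw [hφ i h4, smul_zero, smul_zero]
    · intro h4
      exact absurd (Finset.mem_univ l) h4
  have hK : ∀ (l : Fin n) (φ : M), (∀ i, l < i → c i φ = 0) → ∀ s : S,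
      c l (s • φ) = s • c l φ := by
    intro l φ hφ s
    obtain ⟨t, ht, rfl⟩ := hS s
    rw [Finset.sum_smul, Finset.sum_smul, map_sum]
    exact Finset.sum_congr rfl fun h _ => hK1 l φ hφ h (t h) (ht h)
  let W : ℕ → Submodule S M := fun j =>
    { carrier := {φ | ∀ i : Fin n, j ≤ (i : ℕ) → c i φ = 0}
      add_mem' := fun {a b} ha hb i hi => by rw [map_add, ha i hi, hb i hi, add_zero]
      zero_mem' := fun i _ => map_zero _
      smul_mem' := fun s φ hφ i hi => by
        rw [hK i φ (fun i' hi' => hφ i' (hi.trans (le_of_lt hi'))) s, hφ i hi, smul_zero] }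
  have hW : ∀ j φ, φ ∈ W j ↔ ∀ i : Fin n, j ≤ (i : ℕ) → c i φ = 0 := fun j φ => Iff.rfl
  refine ⟨W, ?_, ?_, ?_⟩
  · rw [eq_bot_iff]
    intro φ hφ
    rw [Submodule.mem_bot]
    apply e.injective
    rw [map_zero]
    ext g
    rw [hrec φ g, Pi.zero_apply]
    exact Finset.sum_eq_zero fun i _ => by rw [(hW 0 φ).1 hφ i (Nat.zero_le _), smul_zero]
  · rw [eq_top_iff]
    intro φ _ i hi
    exact absurd i.isLt (not_lt.mpr hi)
  · intro j hj
    refine ⟨fun φ hφ i hi => hφ i ((Nat.le_succ j).trans hi), ?_⟩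
    have hmem : ∀ φ : ↥(W (j + 1)), ∀ i : Fin n, (⟨j, hj⟩ : Fin n) < i → c i (φ : M) = 0 :=
      fun φ i hi => φ.2 i hi
    refine ⟨{ toFun := fun φ => c ⟨j, hj⟩ (φ : M)
              map_add' := fun a b => by rw [Submodule.coe_add, map_add]
              map_smul' := fun s φ => ?_ }, ?_, ?_⟩
    · rw [RingHom.id_apply, Submodule.coe_smul]
      exact hK ⟨j, hj⟩ (φ : M) (hmem φ) s
    · intro x
      have hx : ∀ i, c i (e.symm (fun g => w ⟨j, hj⟩ g • x)) =
          (if i = (⟨j, hj⟩ : Fin n) then (1 : ZMod p) else 0) • x := by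
        intro i
        rw [hc, AddEquiv.apply_symm_apply, ← h2 i ⟨j, hj⟩, Finset.sum_smul]
        exact Finset.sum_congr rfl fun g _ => smul_smul _ _ _
      refine ⟨⟨e.symm (fun g => w ⟨j, hj⟩ g • x), ?_⟩, ?_⟩
      · intro i hi
        rw [hx, if_neg, zero_smul]
        intro h
        rw [h] at hi
        exact absurd hi (by simp)
      · show c ⟨j, hj⟩ (e.symm (fun g => w ⟨j, hj⟩ g • x)) = x
        rw [hx, if_pos rfl, one_smul]
    · intro φ
      show c ⟨j, hj⟩ (φ : M) = 0 ↔ (φ : M) ∈ W j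
      constructor
      · intro h i hi
        rcases hi.eq_or_lt with h5 | h5
        · have : i = ⟨j, hj⟩ := Fin.ext h5.symm
          rw [this]; exact h
        · exact φ.2 i h5
      · intro h
        exact h ⟨j, hj⟩ le_rfl

theorem main : Pool.Agent.Helper225.CP.TaskLayers.{u} := by
  intro hFlag hDiag p _ T S _ _ P _ _ D hP hp X
  classical
  obtain ⟨w, hw, hw2⟩ := hFlag p P hP
  obtain ⟨v, h1, h2, h3⟩ := flagCoeffs w hw hw2
  obtain ⟨e, he⟩ := hDiag T S P D X
  have hpX : ∀ x : X, p • x = 0 := by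
    intro x
    have : (p : S) = 0 := by rw [← map_natCast D.f, hp, map_zero]
    rw [← Nat.cast_smul_eq_nsmul S, this, zero_smul]
  letI : Module (ZMod p) X := AddCommGroup.zmodModule hpX
  refine layersAbs (p := p) X (D.coind.obj (D.res.obj X)) e _ w v h1 h2 h3
    (fun h => {s | ∃ t : T, s = D.f t * (D.y h : S)}) ?_ ?_
  · rintro h _ ⟨t, rfl⟩ φ g
    exact he t h φ g
  · intro s
    obtain ⟨t, ht⟩ := D.bij.2 s
    exact ⟨fun h => D.f (t h) * (D.y h : S), fun h => ⟨t h, rfl⟩, ht.symm⟩

end Pool.Agent.Helper225.CP.TLayers
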