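import Pool.Agent.Helper225.CP.Stmts

set_option autoImplicit false

namespace Pool.Agent.Helper225.CP.TList

open Pool.Agent.Helper225.CP Pool.Agent.Q112.Rig

universe u

/-- splitting a finite product along a map -/
private noncomputable def fibre {R : Type u} [Ring R] {n r : ℕ} (N : Fin n → ModuleCat.{u} R)
    (f : Fin n → Fin r) :
    (∀ x, N x) ≃ₗ[R] (∀ j : Fin r, ∀ x : {x // f x = j}, N x.1) where
  toFun φ j x := φ x.1
  invFun ψ x := ψ (f x) ⟨x, rfl⟩
  left_inv φ := rfl
  right_inv ψ := by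
    funext j x
    obtain ⟨x, rfl⟩ := x
    rfl
  map_add' _ _ := rfl
  map_smul' _ _ := rfl

theorem main : TaskList.{u} := by
  intro hDec R _ s M hA hN
  choose n N hI hE using fun i => hDec R (M i) (hA i) (hN i)
  let I := Σ i : Fin s, Fin (n i)
  let NN : I → ModuleCat.{u} R := fun x => N x.1 x.2
  let st : Setoid I := 
    { r := fun x y => Nonempty (NN x ≃ₗ[R] NN y)
      iseqv := ⟨fun x => ⟨LinearEquiv.refl R _⟩, fun ⟨e⟩ => ⟨e.symm⟩, fun ⟨e⟩ ⟨e'⟩ => ⟨e.trans e'⟩⟩ }
  haveI : Finite (Quotient st) := Quotient.finite st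
  obtain ⟨r, ⟨e⟩⟩ := Finite.exists_equiv_fin (Quotient st)
  classical
  let L : Fin r → ModuleCat.{u} R := fun j => NN (e.symm j).out
  let f : ∀ i, Fin (n i) → Fin r := fun i x => e (Quotient.mk st ⟨i, x⟩)
  let m : Fin s → Fin r → ℕ := fun i j => Fintype.card {x : Fin (n i) // f i x = j}
  refine ⟨r, L, m, fun j => hI _ _, fun j j' hj => ⟨fun g => hj ?_⟩, fun j => ?_, fun i => ?_⟩
  · have h1 : (Quotient.mk st (e.symm j).out) = Quotient.mk st (e.symm j').out :=
      Quotient.sound (s := st) ⟨g⟩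
    rw [Quotient.out_eq, Quotient.out_eq] at h1
    exact e.symm.injective h1
  · refine ⟨(e.symm j).out.1, Fintype.card_pos_iff.2 ⟨⟨(e.symm j).out.2, ?_⟩⟩⟩
    change e (Quotient.mk st ⟨(e.symm j).out.1, (e.symm j).out.2⟩) = j
    have h1 : (⟨(e.symm j).out.1, (e.symm j).out.2⟩ : I) = (e.symm j).out := rfl
    rw [h1, Quotient.out_eq, Equiv.apply_symm_apply]
  · obtain ⟨E⟩ := hE i
    have hg : ∀ j : Fin r, ∀ x : {x // f i x = j}, Nonempty (N i x.1 ≃ₗ[R] L j) := by
      intro j x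
      obtain ⟨x, rfl⟩ := x
      have h1 : Quotient.mk st (⟨i, x⟩ : I) = Quotient.mk st (e.symm (f i x)).out := by
        rw [Quotient.out_eq]
        exact (Equiv.symm_apply_apply e _).symm
      exact Quotient.exact (s := st) h1
    let G : ∀ j : Fin r, ∀ x : {x // f i x = j}, N i x.1 ≃ₗ[R] L j := fun j x =>
      Classical.choice (hg j x)
    let C : ∀ j : Fin r, ({x // f i x = j} → L j) ≃ₗ[R] (Fin (m i j) → L j) := fun j =>
      LinearEquiv.funCongrLeft R (L j) (Fintype.equivFin {x : Fin (n i) // f i x = j}).symm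
    exact ⟨E.trans ((fibre (N i) (f i)).trans (LinearEquiv.piCongrRight fun j =>
      (LinearEquiv.piCongrRight (G j)).trans (C j)))⟩

end Pool.Agent.Helper225.CP.TList
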