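import Pool.Agent.Helper225.CP.Stmts

/-!
The opposite of a crossed product is a crossed product.
-/

set_option autoImplicit false

namespace Pool.Agent.Helper225.CP.TOp

open MulOpposite

universe u

theorem main : Pool.Agent.Helper225.CP.TaskOp.{u} := by
  intro T S _ _ P _ _ D
  have finj : Function.Injective D.f := by
    intro a b hab
    have h := D.bij.1 (a₁ := fun _ => a) (a₂ := fun _ => b) (by simp [hab])
    exact congrFun h 1
  choose σ hσ using D.conj
  choose τ hτ using D.conj'
  have hb : ∀ g, Function.Bijective (σ g) := by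
    intro g
    constructor
    · intro a b hab
      apply finj
      have h1 := hσ g a
      have h2 := hσ g b
      rw [hab, ← h2] at h1
      exact (Units.mul_right_inj (D.y g)).1 h1
    · intro t
      refine ⟨τ g t, finj ?_⟩
      have h1 := hτ g t
      rw [hσ] at h1
      exact ((Units.mul_left_inj (D.y g)).1 h1).symm
  have hΦ : Function.Bijective (fun t : P → T => ∑ g, (D.y g : S) * D.f (t g)) := by
    have h0 : (fun t : P → T => ∑ g, (D.y g : S) * D.f (t g)) =
        (fun t : P → T => ∑ g, D.f (t g) * (D.y g : S)) ∘ (fun t g => σ g (t g)) := by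
      funext t
      simp only [Function.comp]
      exact Finset.sum_congr rfl fun g _ => hσ g (t g)
    rw [h0]
    exact D.bij.comp (Function.Bijective.piMap hb)
  refine ⟨{ f := D.f.op, y := fun g => Units.opEquiv.symm (op (D.y g⁻¹)),
            conj := ?_, conj' := ?_, mul := ?_, bij := ?_ }⟩
  · intro g t
    refine ⟨op (τ g⁻¹ (unop t)), ?_⟩
    apply unop_injective
    have := hτ g⁻¹ (unop t)
    simpa using this
  · intro g t
    refine ⟨op (σ g⁻¹ (unop t)), ?_⟩
    apply unop_injective
    have := hσ g⁻¹ (unop t)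
    simpa using this
  · intro g h
    obtain ⟨t, ht⟩ := D.mul h⁻¹ g⁻¹
    refine ⟨op (τ (h⁻¹ * g⁻¹) t), ?_⟩
    apply unop_injective
    have h1 := hτ (h⁻¹ * g⁻¹) t
    rw [h1] at ht
    simpa [mul_inv_rev] using ht
  · have h0 : (fun t : P → Tᵐᵒᵖ => ∑ g, D.f.op (t g) * ((Units.opEquiv.symm (op (D.y g⁻¹)) : Sᵐᵒᵖˣ) : Sᵐᵒᵖ)) =
        op ∘ (fun t : P → T => ∑ g, (D.y g : S) * D.f (t g)) ∘ (fun (t : P → Tᵐᵒᵖ) g => unop (t g⁻¹)) := by
      funext t
      simp only [Function.comp]
      apply unop_injective
      rw [unop_op, Finset.unop_sum]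
      refine Fintype.sum_equiv (Equiv.inv P) _ _ fun g => ?_
      simp
    rw [h0]
    refine (opEquiv.bijective).comp (hΦ.comp ?_)
    constructor
    · intro a b hab
      funext g
      have := congrFun hab g⁻¹
      simpa using this
    · intro b
      refine ⟨fun g => op (b g⁻¹), ?_⟩
      funext g
      simp

end Pool.Agent.Helper225.CP.TOp
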