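import Pool.Agent.Helper225.CP.Stmts
import Mathlib.NumberTheory.SiegelsLemma

set_option autoImplicit false

namespace Pool.Agent.Helper225.CP.TRel

open Matrix

/-- a nonzero integral relation between `s` integral vectors of length `r < s` -/
theorem exists_relation (s r : ℕ) (m : Fin s → Fin r → ℕ) (h : r < s) :
    ∃ c : Fin s → ℤ, (∃ i, 0 < c i) ∧ ∀ j, ∑ i, c i * (m i j : ℤ) = 0 := by
  rcases Nat.eq_zero_or_pos r with hr | hr
  · subst hr
    exact ⟨fun _ => 1, ⟨⟨0, h⟩, one_pos⟩, fun j => j.elim0⟩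
  · obtain ⟨t, ht0, ht, -⟩ := Int.Matrix.exists_ne_zero_int_vec_norm_le
      (A := (Matrix.of fun (j : Fin r) (i : Fin s) => (m i j : ℤ))) (by simpa using h) (by simpa using hr)
    have hrel : ∀ j, ∑ i, t i * (m i j : ℤ) = 0 := by
      intro j
      have := congrFun ht j
      simp only [mulVec, dotProduct, Matrix.of_apply, Pi.zero_apply] at this
      rw [← this]
      exact Finset.sum_congr rfl fun i _ => mul_comm _ _
    obtain ⟨i, hi⟩ := Function.ne_iff.1 ht0
    rcases lt_or_gt_of_ne (show t i ≠ 0 from hi) with h1 | h1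
    · refine ⟨fun i => - t i, ⟨i, by simpa using h1⟩, fun j => ?_⟩
      simp only [neg_mul, Finset.sum_neg_distrib, hrel j, neg_zero]
    · exact ⟨t, ⟨i, h1⟩, hrel⟩

theorem main : Pool.Agent.Helper225.CP.TaskRel := by
  intro s r m h
  obtain ⟨c, ⟨i, hi⟩, hc⟩ := exists_relation s r m h
  refine ⟨fun i => (c i).toNat, fun i => (-(c i)).toNat, ⟨i, ?_⟩, fun i => ?_, fun j => ?_⟩
  · show (c i).toNat ≠ 0
    omega
  · show (c i).toNat = 0 ∨ (-(c i)).toNat = 0
    omega
  · have key : ∀ x : ℤ, ((x.toNat : ℤ)) = ((-x).toNat : ℤ) + x := by intro x; omega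
    have : ((∑ i, (c i).toNat * m i j : ℕ) : ℤ) = ((∑ i, (-(c i)).toNat * m i j : ℕ) : ℤ) := by
      push_cast
      have e : ∑ i, ((c i).toNat : ℤ) * (m i j : ℤ)
          = ∑ i, (((-(c i)).toNat : ℤ) * (m i j : ℤ) + c i * (m i j : ℤ)) := by
        refine Finset.sum_congr rfl fun i _ => ?_
        rw [key (c i)]; ring
      rw [e, Finset.sum_add_distrib, hc j, add_zero]
    exact_mod_cast this

end Pool.Agent.Helper225.CP.TRel
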