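import Pool.Agent.Helper225.CP.Stmts

set_option autoImplicit false

namespace Pool.Agent.Helper225.CP.TResProj

open CategoryTheory Abelian MulOpposite Pool.Agent.Q112.Rig

universe u

variable {T S : Type u} [Ring T] [Ring S] {P : Type} [Group P] [Fintype P]

/-- `S` as a `T`-module -/
noncomputable abbrev SS (D : Crossed T S P) : ModuleCat.{u} T :=
  (ModuleCat.restrictScalars D.f).obj (ModuleCat.of S S)

/-- the linear map `T^P → S` -/
noncomputable def LL (D : Crossed T S P) : (P → T) →ₗ[T] (SS D) where
  toFun t := (show S from ∑ g, D.f (t g) * (D.y g : S))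
  map_add' t t' := by
    show ∑ g, D.f ((t + t') g) * (D.y g : S) =
      ∑ g, D.f (t g) * (D.y g : S) + ∑ g, D.f (t' g) * (D.y g : S)
    rw [← Finset.sum_add_distrib]
    refine Finset.sum_congr rfl fun g _ => ?_
    rw [Pi.add_apply, map_add, add_mul]
  map_smul' a t := by
    show ∑ g, D.f ((a • t) g) * (D.y g : S) = D.f a * ∑ g, D.f (t g) * (D.y g : S)
    rw [Finset.mul_sum]
    refine Finset.sum_congr rfl fun g _ => ?_
    rw [Pi.smul_apply, smul_eq_mul, map_mul, mul_assoc]

theorem proj (D : Crossed T S P) : Module.Projective T (SS D) := by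
  have h1 : Function.Bijective (LL D) := D.bij
  exact Module.Projective.of_equiv (LinearEquiv.ofBijective (LL D) h1)

theorem main : Pool.Agent.Helper225.CP.TaskResProj.{u} := by
  intro T S _ _ P _ _ D X hX
  have h1 : (D.coind).PreservesEpimorphisms := by
    refine ⟨fun {M N} g hg => ?_⟩
    rw [ModuleCat.epi_iff_surjective] at hg ⊢
    intro φ
    have := proj D
    obtain ⟨ψ, hψ⟩ := Module.projective_lifting_property g.hom
      (ModuleCat.CoextendScalars.equiv D.f N φ) hg
    refine ⟨(ModuleCat.CoextendScalars.equiv D.f M).symm ψ, ?_⟩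
    apply (ModuleCat.CoextendScalars.equiv D.f N).injective
    exact hψ
  exact (ModuleCat.restrictCoextendScalarsAdj.{u, u, u} D.f).map_projective X hX

end Pool.Agent.Helper225.CP.TResProj
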