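import Pool.Agent.Helper225.CP.Stmts

/-!
MP_b2fb47_al: task `TaskRetL` of the blueprint in `Pool/Agent/Helper225/CP/Stmts.lean`.
-/

set_option autoImplicit false

namespace Pool.Agent.Helper225.CP.TRetL

open CategoryTheory Abelian Pool.Agent.Q112.Rig

universe u

theorem main : Pool.Agent.Helper225.CP.TaskRetL.{u} := by
  intro R _ X X' Y s r h i hE
  refine subsingleton_of_forall_eq 0 fun x => ?_
  have h1 : (Ext.mk₀ r).comp x (zero_add i) = 0 := Subsingleton.elim _ _
  have h2 : (Ext.mk₀ s).comp ((Ext.mk₀ r).comp x (zero_add i)) (zero_add i) = x := by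
    rw [Ext.mk₀_comp_mk₀_assoc, h, Ext.mk₀_id_comp]
  rw [← h2, h1, Ext.comp_zero]

end Pool.Agent.Helper225.CP.TRetL
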